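import Pool.Agent.REV.StmtsG
import Pool.Agent.BPH.Zfu
import Pool.Agent.BPH.Gwb
import Pool.Agent.BPH.Gwa
import Pool.Agent.BPH.Spi
import Pool.Agent.BPH.Sph

/-!
# Squad REV, row DEQ (helper32)
-/

set_option autoImplicit false

open MeasureTheory Module Set Filter
open scoped RealInnerProductSpace Pointwise Topology ENNReal

namespace Pool.Agent.REV.H32

open Pool.Agent.REV Pool.Agent.BPH

theorem nrm_le_one {E : Type} [NormedAddCommGroup E] [InnerProductSpace ℝ E] (x : E) :
    ‖nrm x‖ ≤ 1 := by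
  unfold nrm
  by_cases h : x = 0
  · simp [h]
  · rw [norm_smul, norm_inv, norm_norm, inv_mul_cancel₀ (norm_ne_zero_iff.2 h)]

theorem deq (bpi : BpiStmt) (qme : QmeStmt) : DeqStmt := by
  intro E _ _ _ _ _ i hi1 hi
  have hnt : Nontrivial E := Module.nontrivial_of_finrank_pos (R := ℝ) (by omega)
  have hs : SPH := sph_facts
  have hgwb : GWB := gwb gwa
  have hspi : SPIStmt := spi hs
  have hzfu : ZFU := zfu gwa hgwb hs hspi
  have hprob := hs.prob (E := E)
  obtain ⟨c0, hc0, hBP⟩ := bpi E i hi
  refine ⟨1 / c0, by positivity, ?_⟩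
  intro f hf
  obtain ⟨hQm, hQ0, hQC⟩ := qme (E := E) i f hf
  have hZ : 0 < ZZ i f := hzfu.pos i f (by omega) hf
  obtain ⟨C, hC⟩ := hf.bdd
  have hC0 : 0 ≤ C := (hf.nonneg 0).trans (hC 0)
  have hgw0 : ∀ v : Fin i → E, 0 ≤ gw v := fun v => Real.sqrt_nonneg _
  have hgw1 : ∀ v : Fin i → E, (∀ l, ‖v l‖ ≤ 1) → gw v ≤ 1 := by
    intro v hv
    refine (hgwb.le v).trans ?_
    exact Finset.prod_le_one (fun l _ => norm_nonneg _) (fun l _ => hv l)
  have hprodb : ∀ v : Fin i → E, |∏ l, f (v l)| ≤ C ^ i := by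
    intro v
    rw [Finset.abs_prod]
    calc ∏ l, |f (v l)| ≤ ∏ _l : Fin i, C := by
          refine Finset.prod_le_prod (fun l _ => abs_nonneg _) (fun l _ => ?_)
          rw [abs_of_nonneg (hf.nonneg _)]; exact hC _
      _ = C ^ i := by simp
  have hprodm : Measurable (fun v : Fin i → E => ∏ l, f (v l)) :=
    Finset.measurable_prod _ (fun l _ => hf.meas.comp (measurable_pi_apply l))
  have hnorm : ∀ᵐ v ∂sphP E i, ∀ l, ‖v l‖ = 1 := by
    rw [ae_all_iff]
    intro l
    exact (Measure.quasiMeasurePreserving_eval (fun _ : Fin i => sph E) l).ae (hs.norm (E := E))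
  -- the main identity
  have star : ∀ φ : E → ℝ, Tst φ → ∫ u, φ u * QQ i f u ∂sph E =
      c0 * ∫ v, (gw v * ∏ l, f (v l)) * mS (perp v) φ ∂sphP E i := by
    intro φ hφ
    obtain ⟨D, hD⟩ := hφ.bdd
    have hD0 : 0 ≤ D := (abs_nonneg _).trans (hD 0)
    have hΨ : BM (fun q : (Fin i → E) × E => (min (gw q.1) 1 * ∏ l, f (q.1 l)) * φ q.2) := by
      refine ⟨?_, 1 * C ^ i * D, ?_⟩
      · have h1 : Measurable (fun q : (Fin i → E) × E => gw q.1) :=
          (hgwb.cont.measurable).comp measurable_fst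
        exact ((h1.min measurable_const).mul (hprodm.comp measurable_fst)).mul
          (hφ.meas.comp measurable_snd)
      · intro q
        rw [abs_mul, abs_mul]
        have h1 : |min (gw q.1) 1| ≤ 1 := by
          rw [abs_of_nonneg (le_min (hgw0 _) zero_le_one)]
          exact min_le_right _ _
        gcongr
        · exact hprodb _
        · exact hD _
    have h := hBP _ hΨ
    have hL : ∀ u : E, mP (ℝ ∙ u)ᗮ i (fun w => gw w * ((min (gw w) 1 * ∏ l, f (w l)) * φ u))
        = φ u * QQ i f u := by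
      intro u
      unfold QQ mP
      rw [← integral_const_mul]
      apply integral_congr_ae
      apply Eventually.of_forall
      intro x
      simp only
      have h1 : min (gw fun l => nrm ((ℝ ∙ u)ᗮ.starProjection (x l))) 1
          = gw fun l => nrm ((ℝ ∙ u)ᗮ.starProjection (x l)) :=
        min_eq_left (hgw1 _ fun l => nrm_le_one _)
      rw [h1]
      ring
    have hR : ∫ v, mS (perp v) (fun u => (min (gw v) 1 * ∏ l, f (v l)) * φ u) ∂sphP E i
        = ∫ v, (gw v * ∏ l, f (v l)) * mS (perp v) φ ∂sphP E i := by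
      apply integral_congr_ae
      filter_upwards [hnorm] with v hv
      have h1 : min (gw v) 1 = gw v := min_eq_left (hgw1 _ fun l => (hv l).le)
      rw [h1]
      unfold mS
      rw [← integral_const_mul]
    simp only at h
    rw [hR] at h
    rw [← h]
    apply integral_congr_ae
    exact Eventually.of_forall fun u => (hL u).symm
  have hstep : ∀ φ : E → ℝ, Tst φ → ∫ u, φ u * (1 / c0 * QQ i f u / ZZ i f) ∂sph E =
      (∫ v, (gw v * ∏ l, f (v l)) * mS (perp v) φ ∂sphP E i) / ZZ i f := by
    intro φ hφ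
    have h1 : (fun u => φ u * (1 / c0 * QQ i f u / ZZ i f))
        = fun u => (1 / (c0 * ZZ i f)) * (φ u * QQ i f u) := by
      funext u
      field_simp
    rw [h1, integral_const_mul, star φ hφ]
    field_simp
  constructor
  · refine ⟨?_, ?_, ?_, ?_⟩
    · exact (hQm.const_mul _).div_const _
    · intro x
      exact div_nonneg (mul_nonneg (by positivity) (hQ0 x)) hZ.le
    · refine ⟨1 / c0 * C ^ i / ZZ i f, fun x => ?_⟩
      have := hQC C hC0 hC x
      gcongr
    · have h1 := hstep (fun _ => 1) ⟨measurable_const, 1, fun _ => by simp⟩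
      simp only [one_mul] at h1
      rw [h1]
      have h2 : ∀ v : Fin i → E, mS (perp v) (fun _ => (1 : ℝ)) = 1 := by
        intro v
        unfold mS
        simp
      simp only [h2, mul_one]
      exact div_self hZ.ne'
  · intro φ hφ
    rw [hstep φ hφ]
    field_simp

end Pool.Agent.REV.H32
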