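import Pool.Agent.REV.StmtsG

/-!
# Squad REV, row GAM (helper32)
-/

set_option autoImplicit false

open MeasureTheory Module Set Filter
open scoped RealInnerProductSpace Pointwise Topology ENNReal

namespace Pool.Agent.REV.H32

open Pool.Agent.REV Pool.Agent.BPH

theorem gam : GamStmt := by
  intro E _ _ _ _ _ U lam hlam y1 y2 Θ hΘ
  obtain ⟨hm, C, hC⟩ := hΘ
  have := hlam.prob
  refine ⟨?_, C, ?_⟩
  · have hjoint : Measurable (fun q : (ℝ × E) × (U →L[ℝ] U) =>
        Θ (q.1.1 • ((q.2 y1 : U) : E) + q.1.2, ((q.2 y2 : U) : E))) := by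
      apply hm.comp
      have h1 : Measurable (fun q : (ℝ × E) × (U →L[ℝ] U) => ((q.2 y1 : U) : E)) :=
        (Measurable.apply_continuousLinearMap measurable_snd y1).subtype_val
      have h2 : Measurable (fun q : (ℝ × E) × (U →L[ℝ] U) => ((q.2 y2 : U) : E)) :=
        (Measurable.apply_continuousLinearMap measurable_snd y2).subtype_val
      exact (((measurable_fst.fst).smul h1).add measurable_fst.snd).prodMk h2
    exact (hjoint.stronglyMeasurable.integral_prod_right (ν := lam)).measurable
  · intro p
    unfold Gam
    rw [← Real.norm_eq_abs]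
    refine (norm_integral_le_of_norm_le_const (C := C) (Eventually.of_forall fun h => ?_)).trans ?_
    · rw [Real.norm_eq_abs]
      exact hC _
    · simp

end Pool.Agent.REV.H32
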