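import Pool.Agent.REV.StmtsA2

/-!
# Squad REV, row YLO (helper32)
-/

set_option autoImplicit false

open Set MeasureTheory

namespace Pool.Agent.REV.H32

open Pool.Agent.REV

theorem ylo_pt {m t c x : ℝ} (hm : 1 ≤ m) (ht0 : 0 ≤ t) (hc0 : 0 < c) (hct : c ^ 2 = 1 - t ^ 2)
    (hx0 : 0 ≤ x) (hx1 : x ≤ 1) :
    (1 - x ^ 2) ^ m - (max 0 (1 - x ^ 2 / c ^ 2)) ^ m ≤ m * (t / c) * (1 - x ^ 2) ^ (m - 1 / 2) ∧
    (max 0 (1 - x ^ 2 / c ^ 2)) ^ m ≤ (1 - x ^ 2) ^ m := by
  set u := 1 - x ^ 2 with hu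
  set v := max 0 (1 - x ^ 2 / c ^ 2) with hv
  have hx2 : x ^ 2 ≤ 1 := by nlinarith
  have hu0 : 0 ≤ u := by rw [hu]; linarith
  have hv0 : 0 ≤ v := le_max_left _ _
  have hc2 : 0 < c ^ 2 := by positivity
  have hc21 : c ^ 2 ≤ 1 := by nlinarith [sq_nonneg t]
  have hvu : v ≤ u := by
    rw [hv]
    apply max_le hu0
    have : x ^ 2 ≤ x ^ 2 / c ^ 2 := by
      rw [le_div_iff₀ hc2]
      nlinarith [sq_nonneg x]
    rw [hu]
    linarith
  have hm0 : 0 < m := by linarith
  have hmono : v ^ m ≤ u ^ m := Real.rpow_le_rpow hv0 hvu hm0.le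
  refine ⟨?_, hmono⟩
  rcases hu0.eq_or_lt with h0 | hupos
  · have hv00 : v = 0 := le_antisymm (by rw [h0]; exact hvu) hv0
    rw [hv00, ← h0, Real.zero_rpow hm0.ne']
    have : 0 ≤ m * (t / c) * (0 : ℝ) ^ (m - 1 / 2) := by positivity
    linarith
  -- Bernoulli
  have hb : 1 + m * (v / u - 1) ≤ (v / u) ^ m := by
    have := one_add_mul_self_le_rpow_one_add (s := v / u - 1) (p := m) (by
      have : 0 ≤ v / u := by positivity
      linarith) hm
    rwa [add_sub_cancel] at this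
  have hbm : u ^ m - v ^ m ≤ m * u ^ (m - 1) * (u - v) := by
    have h1 : (v / u) ^ m = v ^ m / u ^ m := Real.div_rpow hv0 hu0 m
    have h2 : 0 < u ^ m := Real.rpow_pos_of_pos hupos m
    have h3 : u ^ m = u ^ (m - 1) * u := by
      rw [Real.rpow_sub_one hupos.ne']
      field_simp
    rw [h1, le_div_iff₀ h2] at hb
    have h4 : (1 + m * (v / u - 1)) * u ^ m = u ^ m - m * u ^ (m - 1) * (u - v) := by
      nth_rewrite 1 [h3]
      field_simp
      rw [h3]
      ring
    rw [h4] at hb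
    linarith
  have hd : (u - v) ^ 2 ≤ u * (x ^ 2 * t ^ 2 / c ^ 2) := by
    have h1 : u - v ≤ u := by linarith
    have h2 : u - v ≤ x ^ 2 * t ^ 2 / c ^ 2 := by
      rcases le_or_gt (x ^ 2) (c ^ 2) with hxc | hxc
      · have h3 : 1 - x ^ 2 / c ^ 2 ≤ v := le_max_right _ _
        have h4 : x ^ 2 * t ^ 2 / c ^ 2 = x ^ 2 / c ^ 2 - x ^ 2 := by
          have : t ^ 2 = 1 - c ^ 2 := by linarith
          rw [this]
          field_simp
        rw [h4, hu]
        linarith
      · have h3 : t ^ 2 ≤ x ^ 2 * t ^ 2 / c ^ 2 := by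
          rw [le_div_iff₀ hc2]
          nlinarith [sq_nonneg t]
        have h4 : u ≤ t ^ 2 := by
          rw [hu]
          linarith
        linarith
    have h0 : 0 ≤ u - v := by linarith
    rw [sq]
    exact mul_le_mul h1 h2 h0 hu0
  have hs : u - v ≤ Real.sqrt u * (t / c) := by
    apply abs_le_of_sq_le_sq' _ (by positivity) |>.2
    refine hd.trans ?_
    rw [mul_pow, Real.sq_sqrt hu0, div_pow]
    apply mul_le_mul_of_nonneg_left _ hu0
    apply div_le_div_of_nonneg_right _ hc2.le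
    nlinarith [sq_nonneg t]
  have hpow : u ^ (m - 1) * Real.sqrt u = u ^ (m - 1 / 2) := by
    rw [Real.sqrt_eq_rpow, ← Real.rpow_add hupos]
    congr 1
    ring
  calc u ^ m - v ^ m ≤ m * u ^ (m - 1) * (u - v) := hbm
    _ ≤ m * u ^ (m - 1) * (Real.sqrt u * (t / c)) := by
        apply mul_le_mul_of_nonneg_left hs
        positivity
    _ = m * (t / c) * (u ^ (m - 1) * Real.sqrt u) := by ring
    _ = m * (t / c) * u ^ (m - 1 / 2) := by rw [hpow]

theorem ylo (int : IntStmt) (crc : CrcStmt) : YloStmt := by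
  intro n κ η hn hκ hη
  have hn' : (4 : ℝ) ≤ n := by exact_mod_cast hn
  set m : ℝ := ((n : ℝ) - 2) / 2 with hmdef
  have hm : 1 ≤ m := by rw [hmdef]; linarith
  have hden : 0 < 2 * ((n : ℝ) - 2) * κ := by
    have : 0 < (n : ℝ) - 2 := by linarith
    positivity
  refine ⟨min (1 / 2) (η / (2 * ((n : ℝ) - 2) * κ)), lt_min (by norm_num) (by positivity),
    min_le_left _ _, ?_⟩
  intro f hf t ht0 ht
  have ht1 : t ≤ 1 / 2 := ht.trans (min_le_left _ _)
  have ht2 : t ≤ η / (2 * ((n : ℝ) - 2) * κ) := ht.trans (min_le_right _ _)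
  set c := Real.sqrt (1 - t ^ 2) with hc
  have h1t : 0 ≤ 1 - t ^ 2 := by nlinarith
  have hct : c ^ 2 = 1 - t ^ 2 := Real.sq_sqrt h1t
  have hc2 : 1 / 2 ≤ c := by
    rw [hc]
    apply Real.le_sqrt_of_sq_le
    nlinarith
  have hc0 : 0 < c := by linarith
  have hc1 : c ≤ 1 := by
    rw [hc]
    apply Real.sqrt_le_one.mpr
    nlinarith [sq_nonneg t]
  obtain ⟨hi1, hi2⟩ := int n f hn hf.adm
  obtain ⟨hA1, -, -, -⟩ := hi2 1 zero_le_one le_rfl
  obtain ⟨-, -, hRA0, -⟩ := hi2 c hc0.le hc1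
  obtain ⟨hcr, -⟩ := crc n f c hc0 hc1
  have hA : IntervalIntegrable (fun x : ℝ => (1 - x ^ 2) ^ m * f x) volume 0 1 := by
    simpa using hA1
  have e3 : ((n : ℝ) - 3) / 2 = m - 1 / 2 := by rw [hmdef]; ring
  have hB : IntervalIntegrable (fun x : ℝ => m * (t / c) * ((1 - x ^ 2) ^ (m - 1 / 2) * f x))
      volume 0 1 := by
    rw [e3] at hi1
    exact hi1.const_mul _
  have hfn := hf.adm.nonneg
  have hm0 : m ≠ 0 := by linarith
  -- the middle function
  have hC : IntervalIntegrable (fun x : ℝ => (max 0 (1 - x ^ 2 / c ^ 2)) ^ m * f x) volume 0 1 := by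
    refine hA.mono_fun' ?_ ?_
    · apply AEMeasurable.aestronglyMeasurable
      apply Measurable.aemeasurable
      apply Measurable.mul _ hf.adm.meas
      have : Measurable (fun x : ℝ => max 0 (1 - x ^ 2 / c ^ 2)) := by
        fun_prop
      exact this.pow_const m
    · rw [Filter.EventuallyLE, ae_restrict_iff' measurableSet_uIoc]
      refine Filter.Eventually.of_forall fun x hx => ?_
      rw [uIoc_of_le zero_le_one] at hx
      have hp := ylo_pt (m := m) hm ht0 hc0 hct hx.1.le hx.2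
      have hfx := hfn x ⟨hx.1.le, hx.2⟩
      rw [Real.norm_eq_abs, abs_of_nonneg (by positivity)]
      exact mul_le_mul_of_nonneg_right hp.2 hfx
  have hmid : ∫ x in (0 : ℝ)..c, (1 - x ^ 2 / c ^ 2) ^ m * f x
      = ∫ x in (0 : ℝ)..1, (max 0 (1 - x ^ 2 / c ^ 2)) ^ m * f x := by
    have hsub1 : uIcc 0 c ⊆ uIcc (0 : ℝ) 1 := by
      rw [uIcc_of_le hc0.le, uIcc_of_le zero_le_one]
      exact Icc_subset_Icc le_rfl hc1
    have hsub2 : uIcc c 1 ⊆ uIcc (0 : ℝ) 1 := by
      rw [uIcc_of_le hc1, uIcc_of_le zero_le_one]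
      exact Icc_subset_Icc hc0.le le_rfl
    rw [← intervalIntegral.integral_add_adjacent_intervals (hC.mono_set hsub1) (hC.mono_set hsub2)]
    have h2 : ∫ x in c..1, (max 0 (1 - x ^ 2 / c ^ 2)) ^ m * f x = 0 := by
      rw [intervalIntegral.integral_congr (g := fun _ => 0)]
      · simp
      · intro x hx
        rw [uIcc_of_le hc1] at hx
        have h3 : 1 - x ^ 2 / c ^ 2 ≤ 0 := by
          have : 1 ≤ x ^ 2 / c ^ 2 := by
            rw [le_div_iff₀ (by positivity)]
            nlinarith [hx.1]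
          linarith
        simp only
        rw [max_eq_left h3, Real.zero_rpow hm0, zero_mul]
    rw [h2, add_zero]
    apply intervalIntegral.integral_congr
    intro x hx
    rw [uIcc_of_le hc0.le] at hx
    have h3 : 0 ≤ 1 - x ^ 2 / c ^ 2 := by
      have : x ^ 2 / c ^ 2 ≤ 1 := by
        rw [div_le_one (by positivity)]
        nlinarith [hx.1, hx.2]
      linarith
    simp only
    rw [max_eq_right h3]
  have hle : ∫ x in (0 : ℝ)..1, ((1 - x ^ 2) ^ m * f x
      - m * (t / c) * ((1 - x ^ 2) ^ (m - 1 / 2) * f x)) ≤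
      ∫ x in (0 : ℝ)..1, (max 0 (1 - x ^ 2 / c ^ 2)) ^ m * f x := by
    apply intervalIntegral.integral_mono_on zero_le_one (hA.sub hB) hC
    intro x hx
    have hp := ylo_pt (m := m) hm ht0 hc0 hct hx.1 hx.2
    have hfx := hfn x hx
    nlinarith [mul_le_mul_of_nonneg_right hp.1 hfx]
  rw [intervalIntegral.integral_sub hA hB, intervalIntegral.integral_const_mul] at hle
  have hmass := hf.mass
  rw [e3] at hmass
  have hlow := hf.low
  have hRA1 : RA n f 1 = ∫ x in (0 : ℝ)..1, (1 - x ^ 2) ^ m * f x := by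
    unfold RA
    simp [hmdef]
  rw [hRA1] at hlow
  have hsmall : m * (t / c) * (∫ x in (0 : ℝ)..1, (1 - x ^ 2) ^ (m - 1 / 2) * f x) ≤ η / 2 := by
    have h0 : 0 ≤ m * (t / c) := by
      have : 0 ≤ m := by linarith
      positivity
    have h1 : m * (t / c) * (∫ x in (0 : ℝ)..1, (1 - x ^ 2) ^ (m - 1 / 2) * f x)
        ≤ m * (t / c) * κ := mul_le_mul_of_nonneg_left hmass h0
    have h2 : t / c ≤ 2 * t := by
      rw [div_le_iff₀ hc0]
      nlinarith
    have h3 : m * (t / c) * κ ≤ m * (2 * t) * κ := by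
      have : 0 ≤ m := by linarith
      gcongr
    have h4 : m * (2 * t) * κ = ((n : ℝ) - 2) * t * κ := by rw [hmdef]; ring
    rw [le_div_iff₀ hden] at ht2
    nlinarith
  have hfin : c * RA n f c ≤ RA n f c := by nlinarith
  rw [hcr, ← hmdef, hmid] at hfin
  linarith

end Pool.Agent.REV.H32
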